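import Mathlib
import Pool.Agent.R298.FA.Final

/-!
# `MP_12dd5c_an`: a TLIM on `AP(A)` does not imply property `(F_n^A)`

The F-algebra is `A = ℓ¹(Γ)`, the convolution algebra of the discrete monoid `Γ` of pairs `(g, n)`,
where `g` is either the identity map of `ℕ` (and `n ≥ 0`), or a step map
`i ↦ if i ≤ m then q else p` (and `n ≥ m + 1`), with composition of maps and addition of weights.
-/

open Pool.Agent.R298.FS

/-- There is an F-algebra `A` such that `AP(A)` has a TLIM but property `(F_1^A)` fails, for real as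
well as for complex locally convex spaces. -/
theorem Pool.Agent.Results.MP_12dd5c_an.AlmostPeriodic.result :
    ∃ F : FAlgebra, (∃ m, F.IsTLIM F.AP m) ∧
      ∀ (𝕜 : Type) [RCLike 𝕜], ¬ PropertyFA 𝕜 F 1 :=
  ⟨Pool.Agent.R298.FA.F₀, Pool.Agent.R298.FA.tlim_AP,
    fun 𝕜 _ => Pool.Agent.R298.FA.not_FA' 𝕜⟩
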